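import Pool.Agent.TH540.Voisin2

/-!
# Voisin's conjecture on symmetric products for the Fermat quintic threefold

Let `X` be the Fermat Calabi-Yau hypersurface `x_1 ^ m + ... + x_m ^ m = 0` of dimension `m - 2` over the
complex numbers; for `m = 5` it is the Fermat quintic threefold. Its primitive motive is (with
coefficients in the `m`-th cyclotomic field) the sum of motives `V(a)` of rank one, where
`a : Fin m → ZMod m` has nonzero values and sum zero (`IsCharacter`).

By Shioda and Katsura, if the `k m` entries of `b_1, ..., b_k` can be divided into `2 k - 1` nonempty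
blocks with sum zero, then `V(b_1) ⊗ ... ⊗ V(b_k)` is `M(-(k - 1))` for an effective motive `M` (a direct
summand of the motive of a product of `2 k - 1` Fermat varieties), so it has no cycles of dimension
`j ≤ k - 2`. The theorem says that this is the case for all pairwise different characters
`b_1, ..., b_k`.

Let `m` be odd. Then `V(a)` has rank one, is finite-dimensional (Kimura) and odd, so `Sym ^ 2 V(a) = 0`
and `Sym ^ k h ^ {m - 2}(X)` is the sum of the `V(b_1) ⊗ ... ⊗ V(b_k)` over all sets of `k` different
characters. So `A_j(Sym ^ k h ^ {m - 2}(X)) = 0` for all `k ≥ 2` and `j ≤ k - 2` (for even `m` the same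
holds for `Λ ^ k`). For `m = 5` this is the criterion of the problem file, and Q1 holds for the Fermat
quintic threefold, for all `k` and `j`. Here the transcendental part of `H ^ 3(X)` has dimension `4`.

The same holds for a crepant resolution `Y` of `X / G`, `m = 5`, `G` a group of diagonal automorphisms which
preserve the holomorphic 3-form, for example for the mirror quintic at the Fermat point: `h ^ 3(Y)` is
the sum of the `V(a)` with `a` trivial on `G` and of motives `h ^ 1(C)(-1)`, `C` a curve.
-/

namespace Pool.Agent.Results.MP_a2ccc3_ag.FermatQuintic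

/-- `a` is a character of the primitive cohomology of the Fermat hypersurface of degree `m` in `n`
variables. -/
def IsCharacter (m n : ℕ) (a : Fin n → ZMod m) : Prop := (∀ i, a i ≠ 0) ∧ ∑ i, a i = 0

/-- The entries of `b 0, ..., b (k - 1)` can be divided into `l` nonempty blocks with sum zero. -/
def Blocks (m n k l : ℕ) (b : Fin k → Fin n → ZMod m) : Prop :=
  ∃ f : Fin k × Fin n → Fin l, Function.Surjective f ∧ ∀ j, ∑ x with f x = j, b x.1 x.2 = 0

theorem result (m k : ℕ) (hm : 3 ≤ m) (hk : 1 ≤ k) (b : Fin k → Fin m → ZMod m)
    (hb : ∀ i, IsCharacter m m (b i)) (hinj : Function.Injective b) :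
    Blocks m m k (2 * k - 1) b := by
  have hz : NeZero m := ⟨by omega⟩
  have hm1 : Fact (1 < m) := ⟨by omega⟩
  have hw : TH540.SC.vals (fun _ : Fin m => (1 : ZMod m)) = Multiset.replicate m 1 := by
    unfold TH540.SC.vals
    rw [Multiset.map_const', Finset.card_val, Finset.card_univ, Fintype.card_fin]
  obtain ⟨l, hl⟩ : ∃ l, 2 * k - 1 = l + 1 := ⟨2 * k - 2, by omega⟩
  have key : TH540.SC.Splits (TH540.SC.vals fun x : Fin k × Fin m => b x.1 x.2) (2 * k - 1) := by
    apply TH540.SC.family_units (w := fun _ => 1) _ hk hinj
    · intro i
      by_cases h2 : TH540.SC.Splits (TH540.SC.vals (b i)) 2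
      · exact Or.inl h2
      · right
        have hne : TH540.SC.vals (b i) ≠ 0 := by
          intro h
          have := congrArg Multiset.card h
          rw [TH540.SC.card_vals, Multiset.card_zero] at this
          omega
        obtain ⟨t, ht⟩ := TH540.SC.index_one (TH540.SC.isMin_of_not_splits hne (hb i).2 h2)
          (by rw [TH540.SC.card_vals]; omega)
        rw [TH540.SC.tw_vals, TH540.SC.ht_vals] at ht
        refine ⟨t⁻¹, ?_⟩
        funext l
        have h1 : ∀ l ∈ (Finset.univ : Finset (Fin m)), 1 ≤ ((t : ZMod m) * b i l).val := by
          intro l _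
          rw [Nat.one_le_iff_ne_zero, Ne, ZMod.val_eq_zero]
          intro h
          exact (hb i).1 l ((Units.mul_right_inj t).mp (by rw [mul_zero]; exact h))
        have h3 : ∑ l : Fin m, 1 = ∑ l : Fin m, ((t : ZMod m) * b i l).val := by
          rw [ht]
          simp
        have h4 := (Finset.sum_eq_sum_iff_of_le h1).mp h3 l (Finset.mem_univ l)
        have h5 := ZMod.natCast_zmod_val ((t : ZMod m) * b i l)
        rw [← h4, Nat.cast_one] at h5
        rw [h5, Units.inv_mul_cancel_left]
    · intro U hU
      rw [hw]
      have hc := hU.card_pos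
      have := TH540.SC.units_ones (m := m) (by omega) (U.card - 1) U (by omega)
      rwa [show 2 * (U.card - 1) + 1 = 2 * U.card - 1 by omega] at this
  rw [hl] at key ⊢
  exact TH540.SC.surj_of_splits key

end Pool.Agent.Results.MP_a2ccc3_ag.FermatQuintic
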