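import Pool.Agent.TH540.CYData

/-!
# Voisin's conjecture on symmetric products for 34 weighted Fermat Calabi-Yau threefolds

Let `d = (d_0, ..., d_4)` be positive integers with `1 / d_0 + ... + 1 / d_4 = 1`, `m` their least common
multiple and `w_l = m / d_l`. Let `X` be the hypersurface `y_0 ^ {d_0} + ... + y_4 ^ {d_4} = 0` in the
weighted projective space with weights `w_l`, and `Y` a crepant resolution of `X`, or of a quotient of `X`
by a group `G` of diagonal automorphisms which preserve the holomorphic 3-form (for the maximal `G` this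
is the mirror threefold). It is a Calabi-Yau threefold. The list `types` contains the `(m, w)` for

  (2,8,8,8,8), (4,4,4,8,8), (3,3,9,9,9), (2,5,10,10,10), (2,4,12,12,12), (2,6,6,12,12),
  (3,3,6,12,12), (3,4,4,12,12), (3,4,6,6,12), (4,4,4,6,12), (4,4,6,6,6), (2,7,7,7,14),
  (3,3,5,15,15), (3,5,5,5,15), (2,4,8,16,16), (2,6,6,9,18), (2,6,9,9,9), (3,3,6,9,18),
  (2,4,10,10,20), (2,5,5,20,20), (4,4,4,5,20), (4,4,5,5,10), (2,3,12,24,24), (2,4,6,24,24),
  (2,4,8,12,24), (2,6,6,8,24), (2,6,8,8,12), (3,3,6,8,24), (3,3,8,8,12), (3,4,6,8,8),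
  (2,3,10,30,30), (2,3,15,15,30), (3,3,5,10,30), (3,5,5,6,10).

`X` is the quotient of the Fermat threefold of degree `m` by the group of all diagonal automorphisms of
the form `x_l ↦ ζ_l x_l` with `ζ_l ^ {w_l} = 1`. So the motive `h ^ 3(Y)` is, with coefficients in the `m`-th
cyclotomic field, the sum of motives `V(a)` of rank one for certain different `a : Fin 5 → ZMod m` with
nonzero values divisible by `w_l` and sum zero (`IsCharacter`; all of them if `Y` resolves `X`), and of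
motives `h ^ 1(C)(-1)`, `C` a curve, which come from the resolution.

For a list `s` of nonzero residues with sum zero let `V(s)` be the direct summand of the motive of the
Fermat variety of degree `m` and dimension `|s| - 2` with character `s`. Known facts (Shioda, Katsura):
`V(s + s') = V(s) ⊗ V(s')(-1)`; `V({x, -x})` is the unit motive; if `σ` is algebraic (`IsAlg`), then
all conjugates of `V(σ)` have Hodge type (1,1), and by Lefschetz and Kimura `V(σ)` is the Lefschetz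
motive. Let `s` be the union of `b_1, ..., b_k`. If `s`, together with the pairs `x, -x` for `x` in `p`, is
composed of `P` and of algebraic lists `Q`, then comparing both sides
`V(b_1) ⊗ ... ⊗ V(b_k)(-(k - 1) - |p|)` is `M(-(|P| + 2 |Q| - 1))` with `M` effective. So if
`|p| + (2 k - 1) ≤ |P| + 2 |Q|`, that is `DivBy s (2 k - 1)`, then `V(b_1) ⊗ ... ⊗ V(b_k)` is `M(-c)` with
`c ≥ k - 1`. The theorem says that this is the case for all pairwise different characters
`b_1, ..., b_k` of `X`, if `(m, w)` is in the list.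

`V(a)` has rank one, is finite-dimensional (Kimura) and odd, so `Sym ^ 2 V(a) = 0` and `Sym ^ k h ^ 3(Y)` is
a sum of motives `V(b_1) ⊗ ... ⊗ V(b_r) ⊗ N(-(k - r))` with different `b_i` and `N` effective. It follows
that it is `M'(-(k - 1))` with `M'` effective, and `A_j(Sym ^ k h ^ 3(Y)) = 0` for `j ≤ k - 2`. This is
the criterion of the problem file; so Q1 holds for these `Y`, for all `k` and `j`. The transcendental
part of `H ^ 3(Y)` has dimension `φ(m)`, which is 4, 6 or 8 here. (The Fermat quintic, `m = 5`, is treated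
in FermatQuintic; for `m = 6` the dimension is 2, a known case.)
-/

namespace Pool.Agent.Results.MP_a2ccc3_ag.WeightedFermat

open TH540 TH540.SC

/-- The pairs `(m, w)`. -/
def types : List (ℕ × (Fin 5 → ℕ)) :=
  [(8, ![4, 1, 1, 1, 1]), (8, ![2, 2, 2, 1, 1]), (9, ![3, 3, 1, 1, 1]), (10, ![5, 2, 1, 1, 1]),
    (12, ![6, 3, 1, 1, 1]), (12, ![6, 2, 2, 1, 1]), (12, ![4, 4, 2, 1, 1]), (12, ![4, 3, 3, 1, 1]),
    (12, ![4, 3, 2, 2, 1]), (12, ![3, 3, 3, 2, 1]), (12, ![3, 3, 2, 2, 2]), (14, ![7, 2, 2, 2, 1]),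
    (15, ![5, 5, 3, 1, 1]), (15, ![5, 3, 3, 3, 1]), (16, ![8, 4, 2, 1, 1]), (18, ![9, 3, 3, 2, 1]),
    (18, ![9, 3, 2, 2, 2]), (18, ![6, 6, 3, 2, 1]), (20, ![10, 5, 2, 2, 1]),
    (20, ![10, 4, 4, 1, 1]), (20, ![5, 5, 5, 4, 1]), (20, ![5, 5, 4, 4, 2]),
    (24, ![12, 8, 2, 1, 1]), (24, ![12, 6, 4, 1, 1]), (24, ![12, 6, 3, 2, 1]),
    (24, ![12, 4, 4, 3, 1]), (24, ![12, 4, 3, 3, 2]), (24, ![8, 8, 4, 3, 1]),
    (24, ![8, 8, 3, 3, 2]), (24, ![8, 6, 4, 3, 3]), (30, ![15, 10, 3, 1, 1]),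
    (30, ![15, 10, 2, 2, 1]), (30, ![10, 10, 6, 3, 1]), (30, ![10, 6, 6, 5, 3])]

/-- `a` is a character of the weighted Fermat threefold of degree `m` with weights `w`. -/
def IsCharacter (m : ℕ) (w : Fin 5 → ℕ) (a : Fin 5 → ZMod m) : Prop :=
  (∀ l, a l ≠ 0) ∧ (∀ l, w l ∣ (a l).val) ∧ ∑ l, a l = 0

lemma mk {m a b c d e : ℕ} {R R' : List Cert}
    (h : chkUnits m [a, b, c, d, e] R = true ∧ chkChars m [a, b, c, d, e] R' = true) :
    ∃ R R' : List Cert, chkUnits m (List.ofFn ![a, b, c, d, e]) R = true ∧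
      chkChars m (List.ofFn ![a, b, c, d, e]) R' = true := by
  have h1 : List.ofFn ![a, b, c, d, e] = [a, b, c, d, e] := by simp [List.ofFn_succ]
  rw [h1]
  exact ⟨R, R', h⟩

theorem result (m : ℕ) [NeZero m] (w : Fin 5 → ℕ) (h : (m, w) ∈ types) (k : ℕ) (hk : 1 ≤ k)
    (b : Fin k → Fin 5 → ZMod m) (hb : ∀ i, IsCharacter m w (b i))
    (hinj : Function.Injective b) :
    DivBy (∑ i, (Finset.univ : Finset (Fin 5)).val.map (b i)) (2 * k - 1) := by
  have hall : ∀ e ∈ types, ∃ R R' : List Cert, chkUnits e.1 (List.ofFn e.2) R = true ∧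
      chkChars e.1 (List.ofFn e.2) R' = true := by
    unfold types
    simp only [List.forall_mem_cons]
    exact ⟨mk CY.c2_8_8_8_8,
    mk CY.c4_4_4_8_8,
    mk CY.c3_3_9_9_9,
    mk CY.c2_5_10_10_10,
    mk CY.c2_4_12_12_12,
    mk CY.c2_6_6_12_12,
    mk CY.c3_3_6_12_12,
    mk CY.c3_4_4_12_12,
    mk CY.c3_4_6_6_12,
    mk CY.c4_4_4_6_12,
    mk CY.c4_4_6_6_6,
    mk CY.c2_7_7_7_14,
    mk CY.c3_3_5_15_15,
    mk CY.c3_5_5_5_15,
    mk CY.c2_4_8_16_16,
    mk CY.c2_6_6_9_18,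
    mk CY.c2_6_9_9_9,
    mk CY.c3_3_6_9_18,
    mk CY.c2_4_10_10_20,
    mk CY.c2_5_5_20_20,
    mk CY.c4_4_4_5_20,
    mk CY.c4_4_5_5_10,
    mk CY.c2_3_12_24_24,
    mk CY.c2_4_6_24_24,
    mk CY.c2_4_8_12_24,
    mk CY.c2_6_6_8_24,
    mk CY.c2_6_8_8_12,
    mk CY.c3_3_6_8_24,
    mk CY.c3_3_8_8_12,
    mk CY.c3_4_6_8_8,
    mk CY.c2_3_10_30_30,
    mk CY.c2_3_15_15_30,
    mk CY.c3_3_5_10_30,
    mk CY.c3_5_5_6_10,
    fun x hx => absurd hx List.not_mem_nil⟩
  have hm : ∀ e ∈ types, 3 ≤ e.1 := by decide +kernel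
  obtain ⟨R, R', h1, h2⟩ := hall (m, w) h
  exact cy_sound (hm (m, w) h) (by norm_num) h1 h2 hk hinj (fun i => (hb i).1)
    (fun i => (hb i).2.1) (fun i => (hb i).2.2)

end Pool.Agent.Results.MP_a2ccc3_ag.WeightedFermat
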